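import Pool.Agent.Helper36.HS.St

/-! # HS: module CX, existence of chains -/

namespace Pool.Agent.Helper36.HS

open Ordinal Cardinal ZFSet Order Pool.Agent.Helper73.HODC Pool.Agent.Helper73.HE
open Pool.Agent.Helper73.HM Pool.Agent.Helper73.HU Pool.Agent.Helper73.HV

theorem cx (h : StNMap) : StCX := by
  intro c δ hr hu h1 h2 hc
  have hlim : IsSuccLimit δ := by
    rw [← Ordinal.aleph0_le_cof, hc]
    exact hu.le
  obtain ⟨f, hf, hft⟩ := h δ hlim
  rw [hc] at hft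
  have hcard : δ.card = c :=
    le_antisymm (Order.lt_succ_iff.1 (Cardinal.lt_ord.1 h2)) (Cardinal.ord_le.1 h1)
  have hmk : Cardinal.mk (Set.Iio c.ord) = Cardinal.mk (Set.Iio δ) := by
    rw [Cardinal.mk_Iio_ordinal, Cardinal.mk_Iio_ordinal, Cardinal.card_ord, hcard]
  obtain ⟨e⟩ := Cardinal.eq.1 hmk
  classical
  refine ⟨fun k => if hk : k < c.ord then (e ⟨k, hk⟩ : Ordinal.{0}) else 0, f, ?_⟩
  refine { reg := hr, unc := hu, gm := ?_, gs := ?_, nor := hf, top := hft }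
  · intro k hk
    simp only [hk, dif_pos]
    exact (e ⟨k, hk⟩).2
  · intro x hx
    refine ⟨(e.symm ⟨x, hx⟩ : Ordinal.{0}), (e.symm ⟨x, hx⟩).2, ?_⟩
    have hk : ((e.symm ⟨x, hx⟩ : Set.Iio c.ord) : Ordinal.{0}) < c.ord := (e.symm ⟨x, hx⟩).2
    simp only [hk, dif_pos, Subtype.coe_eta, Equiv.apply_symm_apply]

end Pool.Agent.Helper36.HS
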