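import Pool.Agent.Helper36.HS.St

/-! # HS: module TY, typical properties -/

namespace Pool.Agent.Helper36.HS

open Ordinal Cardinal ZFSet Order Pool.Agent.Helper73.HODC Pool.Agent.Helper73.HE
open Pool.Agent.Helper73.HM Pool.Agent.Helper73.HU Pool.Agent.Helper73.HV

theorem cae_imp {c : Cardinal.{0}} {P Q : Ordinal.{0} → Prop} (hP : CAE c P)
    (h : ∀ i < c.ord, P i → Q i) : CAE c Q := by
  obtain ⟨C, hC, hCP⟩ := hP
  exact ⟨C, hC, fun i hi hic => h i hic (hCP i hi hic)⟩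

theorem ty (h1 : StCA) (h2 : StCF1) (h3 : StTF) : StTY := by
  intro c δ g h ρ cf R A₀ hch hcδ hcf hFF hcov
  obtain ⟨cand, cdiag, clim, -⟩ := h1 c hch.reg hch.unc
  obtain ⟨cl, clow, chh⟩ := h2 c δ g h hch hcδ
  have him : ∀ i < c.ord, ∀ x ∈ Im g i, x < δ := by
    rintro i hi x ⟨k, hk, rfl⟩
    exact hch.gm k (hk.trans hi)
  have hcovk : ∀ k < c.ord, CAE c (fun i => h i ∈ A₀ → R (h i) (g k)) := by
    intro k hk
    exact (h3 c δ g h hch A₀ (fun a => R a (g k))).1 (hcov (g k) (hch.gm k hk))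
  have c1 := cl (fun x _ => sInf {ξ | ξ + 1 = x})
  have c2 := cl (fun η _ => ρ η)
  have c3 := cl cf
  have c4 := cl (FF R)
  have c5 := cl (fun η ξ => sInf {x | x < ρ η ∧ ξ < cf η x})
  have c6 := cdiag (fun k i => h i ∈ A₀ → R (h i) (g k)) hcovk
  have call := cand _ _ clim (cand _ _ clow (cand _ _ chh (cand _ _ c1 (cand _ _ c2
    (cand _ _ c3 (cand _ _ c4 (cand _ _ c5 c6)))))))
  refine cae_imp call ?_
  rintro i hi ⟨hlim, hlow, ⟨hgh, hhb⟩, h1', h2', h3', h4', h5', h6'⟩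
  refine
    { lim := hlim
      low := hlow
      gh := hgh
      hb := hhb
      hl := ?_
      pred := ?_
      rho := ?_
      cc := ?_
      ff := ?_
      dd := ?_
      cov := ?_ }
  · rw [← hch.top]
    exact hch.nor.strictMono hi
  · intro ξ hξ
    have he : sInf {ξ' : Ordinal.{0} | ξ' + 1 = ξ + 1} = ξ := by
      have : {ξ' : Ordinal.{0} | ξ' + 1 = ξ + 1} = {ξ} := by
        ext x
        simp
      rw [this, csInf_singleton]
    have h7 := h1' (ξ + 1) hξ (ξ + 1) hξ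
    simp only [he] at h7
    refine h7 (lt_trans ?_ (him i hi _ hξ))
    exact Order.lt_add_one_iff.2 le_rfl
  · intro η hη hηl
    exact h2' η hη η hη (lt_of_le_of_lt (hcf.le η (him i hi _ hη) hηl) (him i hi _ hη))
  · intro η hη hηl x hx hxρ
    exact h3' η hη x hx ((hcf.lt η (him i hi _ hη) hηl x hxρ).trans (him i hi _ hη))
  · intro ζ hζ hζl hζρ hL s hs hsA
    have hζδ := him i hi _ hζ
    have hreg : HODReg ζ := by
      have := hcf.reg ζ hζδ hζl
      rwa [hζρ] at this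
    exact h4' ζ hζ s hs ((hFF s hsA ζ hζδ hreg hL).trans hζδ)
  · intro η hη hηl ξ hξ hξη
    have hηδ := him i hi _ hη
    have hne : {x | x < ρ η ∧ ξ < cf η x}.Nonempty := by
      obtain ⟨x, hx, hx'⟩ := hcf.unb η hηδ hηl ξ hξη
      exact ⟨x, hx, hx'⟩
    have hmem := csInf_mem hne
    refine ⟨_, h5' η hη ξ hξ ?_, hmem.1, hmem.2⟩
    exact hmem.1.trans_le ((hcf.le η hηδ hηl).trans hηδ.le)
  · rintro hA x ⟨k, hk, rfl⟩
    exact h6' k hk hA

end Pool.Agent.Helper36.HS
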